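import Pool.Agent.Helper83.Cert.Check
import Pool.Agent.Helper83.TS.Defs

/-!
# Reified polynomial inequalities, in term mode

`R y e n x`: the value of the expression `e` is `n x`. Every real expression built from variables,
numbers, sums, products and the functions of the columns gets such an `e` by one lemma per symbol; a
certificate for `e` (checked by the kernel) gives `0 ≤ x`.
-/

set_option autoImplicit false

namespace Pool.Agent.Helper36.CK

open Pool.Agent.Helper83.Cert Pool.Agent.Helper83.TS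

/-- `n x` is the value of `e` -/
def R (y : ℕ → ℝ) (e : Ex) (n : ℕ) (x : ℝ) : Prop := exVal y e = (n : ℝ) * x

section

variable {y : ℕ → ℝ} {a b c d e f : Ex} {n m : ℕ} {u v w x z : ℝ}

theorem rz : R y (.c 0) 1 0 := by simp [R, exc]

theorem r1 : R y (.c 1) 1 1 := by simp [R, exc]

theorem rn (k : ℕ) [k.AtLeastTwo] : R y (.c (Int.ofNat (OfNat.ofNat k))) 1 (OfNat.ofNat k : ℝ) := by
  simp only [R, exc, Nat.cast_one, one_mul]
  exact Nat.cast_ofNat

theorem rq1 (k : ℕ) [k.AtLeastTwo] : R y (.c 1) (OfNat.ofNat k) (1 / (OfNat.ofNat k : ℝ)) := by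
  have h : (OfNat.ofNat k : ℝ) ≠ 0 := NeZero.ne _
  simp only [R, exc, Int.cast_one, Nat.cast_ofNat]
  field_simp

theorem rq (j k : ℕ) [j.AtLeastTwo] [k.AtLeastTwo] :
    R y (.c (Int.ofNat (OfNat.ofNat j))) (OfNat.ofNat k) ((OfNat.ofNat j : ℝ) / (OfNat.ofNat k : ℝ)) := by
  have h : (OfNat.ofNat k : ℝ) ≠ 0 := NeZero.ne _
  have e : ((Int.ofNat (OfNat.ofNat j) : ℤ) : ℝ) = (OfNat.ofNat j : ℝ) := Nat.cast_ofNat
  simp only [R, exc, Nat.cast_ofNat, e]
  field_simp

theorem radd (h : R y a n x) (k : R y b n z) : R y (.add a b) n (x + z) := by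
  unfold R at *
  rw [exadd, h, k]
  ring

theorem rsub (h : R y a n x) (k : R y b n z) : R y (.sub a b) n (x - z) := by
  unfold R at *
  rw [exsub, h, k]
  ring

theorem rmul (h : R y a n x) (k : R y b m z) : R y (.mul a b) (n * m) (x * z) := by
  unfold R at *
  rw [exmul, h, k]
  push_cast
  ring

theorem rneg (h : R y a n x) : R y (.sub (.c 0) a) n (-x) := by
  unfold R at *
  rw [exsub, h, exc]
  push_cast
  ring

theorem rp2 (h : R y a n x) : R y (.mul a a) (n * n) (x ^ 2) := by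
  unfold R at *
  rw [exmul, h]
  push_cast
  ring

theorem rp3 (h : R y a n x) : R y (.mul a (.mul a a)) (n * (n * n)) (x ^ 3) := by
  unfold R at *
  rw [exmul, exmul, h]
  push_cast
  ring

/-- the scale is multiplied by `k` -/
theorem rsc (k : ℕ) (h : R y a n x) : R y (.mul (.c (Int.ofNat k)) a) (k * n) x := by
  unfold R at *
  rw [exmul, h, exc]
  push_cast
  have e : ((Int.ofNat k : ℤ) : ℝ) = (k : ℝ) := Int.cast_natCast k
  rw [e]
  ring

theorem rdiv (k : ℕ) [k.AtLeastTwo] (h : R y a n x) :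
    R y a (n * OfNat.ofNat k) (x / (OfNat.ofNat k : ℝ)) := by
  have h0 : (OfNat.ofNat k : ℝ) ≠ 0 := NeZero.ne _
  unfold R at *
  rw [h, Nat.cast_mul, Nat.cast_ofNat]
  field_simp

/-! ### The functions of the columns -/

/-- `2 n` times `st` -/
noncomputable def stE (n : ℕ) (C D U : Ex) : Ex :=
  .sub (.mul (.mul (.c 2) C) U) (.mul (.mul (.c (Int.ofNat n)) (.sub (.c 1) D)) (.mul U U))

theorem r_st (hc : R y a n u) (hd : R y b 1 v) (hu : R y c 1 w) :
    R y (stE n a b c) (2 * n) (st u v w) := by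
  unfold R at *
  have e : ((Int.ofNat n : ℤ) : ℝ) = (n : ℝ) := Int.cast_natCast n
  simp only [stE, exsub, exmul, exc, hc, hd, hu, e, st]
  push_cast
  ring

/-- `6 n` times `mj` -/
noncomputable def mjE (n : ℕ) (X E D S : Ex) : Ex :=
  .add (.sub (.mul (.mul (.c 6) X) (.sub D S))
    (.mul (.mul (.mul (.c 3) (.c (Int.ofNat n))) E) (.mul (.sub D S) (.sub D S))))
    (.mul (.mul (.mul (.c 2) (.c (Int.ofNat n))) S) (.mul (.sub D S) (.sub D S)))

theorem r_mj (hX : R y a n u) (hE : R y b 1 v) (hD : R y c 1 w) (hS : R y d 1 x) :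
    R y (mjE n a b c d) (6 * n) (mj u v w x) := by
  unfold R at *
  have e : ((Int.ofNat n : ℤ) : ℝ) = (n : ℝ) := Int.cast_natCast n
  simp only [mjE, exadd, exsub, exmul, exc, hX, hE, hD, hS, e, mj]
  push_cast
  ring

/-- `12` times `vm` -/
noncomputable def vmE (W : Ex) : Ex :=
  .sub (.mul (.mul (.c 3) W) (.mul (.add (.c 1) W) (.add (.c 1) W))) (.mul (.mul (.c 4) W) (.mul W W))

theorem r_vm (h : R y a 1 w) : R y (vmE a) 12 (vm w) := by
  unfold R at *
  simp only [vmE, exadd, exsub, exmul, exc, h, vm]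
  push_cast
  ring

/-! ### The certificate -/

/-- the constraints are nonnegative -/
def G (y : ℕ → ℝ) (gs : List Ex) : Prop := ∀ g ∈ gs, 0 ≤ exVal y g

theorem gnil : G y [] := fun _ h => absurd h List.not_mem_nil

theorem gcons {gs : List Ex} (h : R y a n x) (hx : 0 ≤ x) (H : G y gs) : G y (a :: gs) := by
  intro g hg
  rcases List.mem_cons.1 hg with rfl | hg
  · rw [show exVal y g = (n : ℝ) * x from h]
    exact mul_nonneg (Nat.cast_nonneg _) hx
  · exact H g hg

/-- **The conclusion.** -/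
theorem fin {gs : List Ex} {q : NN} (h : R y a (n + 1) x) (k : R y b (n + 1) z)
    (hy : ∀ k, 0 ≤ y k) (H : G y gs)
    (N : ℕ) (c : check (gs.map exPol) (exPol (.mul (.c (Int.ofNat (N + 1))) (.sub b a))) q = true) :
    x ≤ z := by
  have h1 := cert c hy H
  rw [exmul, exc, exsub, show exVal y a = ((n + 1 : ℕ) : ℝ) * x from h,
    show exVal y b = ((n + 1 : ℕ) : ℝ) * z from k] at h1
  have h2 : (0 : ℝ) < ((Int.ofNat (N + 1) : ℤ) : ℝ) := by
    have e : ((Int.ofNat (N + 1) : ℤ) : ℝ) = ((N + 1 : ℕ) : ℝ) := Int.cast_natCast (N + 1)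
    rw [e]
    positivity
  have h3 : 0 ≤ ((n + 1 : ℕ) : ℝ) * z - ((n + 1 : ℕ) : ℝ) * x := by
    rcases le_or_gt 0 (((n + 1 : ℕ) : ℝ) * z - ((n + 1 : ℕ) : ℝ) * x) with h | h
    · exact h
    · exact absurd h1 (not_le.2 (mul_neg_of_pos_of_neg h2 h))
  have h4 : (0 : ℝ) < ((n + 1 : ℕ) : ℝ) := by positivity
  rw [← mul_sub] at h3
  have := (mul_nonneg_iff_of_pos_left h4).1 h3
  linarith

end

/-! ### Variables -/

section

variable {a b c d e f g h i : ℝ}

theorem rv2 : R (yv a b c d e f g h i) (.v 2) 1 a := by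
  rw [R, exv2, Nat.cast_one, one_mul]

theorem rv3 : R (yv a b c d e f g h i) (.v 3) 1 b := by
  rw [R, exv3, Nat.cast_one, one_mul]

theorem rv5 : R (yv a b c d e f g h i) (.v 5) 1 c := by
  rw [R, exv5, Nat.cast_one, one_mul]

theorem rv7 : R (yv a b c d e f g h i) (.v 7) 1 d := by
  rw [R, exv7, Nat.cast_one, one_mul]

theorem rv11 : R (yv a b c d e f g h i) (.v 11) 1 e := by
  rw [R, exv11, Nat.cast_one, one_mul]

theorem rv13 : R (yv a b c d e f g h i) (.v 13) 1 f := by
  rw [R, exv13, Nat.cast_one, one_mul]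

theorem rv17 : R (yv a b c d e f g h i) (.v 17) 1 g := by
  rw [R, exv17, Nat.cast_one, one_mul]

theorem rv19 : R (yv a b c d e f g h i) (.v 19) 1 h := by
  rw [R, exv19, Nat.cast_one, one_mul]

theorem rv23 : R (yv a b c d e f g h i) (.v 23) 1 i := by
  rw [R, exv23, Nat.cast_one, one_mul]

end

end Pool.Agent.Helper36.CK
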